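import Pool.Agent.N859.LP.Family

/-!
# MP_4819b8_nt: the Ramanujan-Petersson bound for several Hecke characters at once

Let `θ_i`, `i ∈ ι`, be nontrivial characters of the Hecke algebras of weight 2 over a number field
`K`, attached to cuspidal representations `π_i` of `GL_2` over `K` such that the lifts `A² π_i` to
`GL_3` and `A⁴ π_i` to `GL_5` are cuspidal and pairwise not isomorphic. With `α_i` the (unitarily
normalised) Satake parameters `θ_i(T_v) = (N v)^(1/2) (α_{i,v,0} + α_{i,v,1})`.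
-/

set_option autoImplicit false

namespace Pool.Agent.Results.MP_4819b8_nt.SimultaneousFailures

open NumberField IsDedekindDomain Filter Topology Pool.Agent.N859.LP
open Pool.Agent.N859.G4 (PL Nm upperDensity share upper_le)

variable {K : Type*} [Field K] [NumberField K] {S : Finset (HeightOneSpectrum (𝓞 K))}

/-- `θ i v` is the eigenvalue of the Hecke operator `T_v`, `v ∉ S`, on the form attached to the
cuspidal representation `π_i` of `GL_2` of weight 2 with the Satake parameters `α i v`. -/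
structure HeckeCharacters {ι : Type*} [DecidableEq ι] (θ : ι → PL S → ℂ)
    (α : ι → PL S → Fin 2 → ℂ) : Prop where
  family : FamilyGL2 α
  eigenvalue : ∀ i v, θ i v = (Real.sqrt (Nm v.1) : ℂ) * (α i v 0 + α i v 1)

lemma two_le (v : HeightOneSpectrum (𝓞 K)) : 0 < (Nm v : ℝ) := by
  have h : Nm v ≠ 0 := by
    unfold Nm
    rw [Ne, Ideal.absNorm_eq_zero_iff]
    exact v.ne_bot
  exact_mod_cast Nat.pos_of_ne_zero h

/-- the square of the eigenvalue -/
lemma norm_sq_eq {a : Fin 2 → ℂ} (h0 : ∀ j, a j ≠ 0) {τ : Equiv.Perm (Fin 2)}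
    (hτ : ∀ j, a (τ j) = ((starRingEnd ℂ) (a j))⁻¹) {u : ℝ} (hu : a 0 / a 1 + a 1 / a 0 = u) :
    ‖a 0 + a 1‖ ^ 2 = 2 + u := by
  have h1 : (starRingEnd ℂ) (a 0 + a 1) = (a 0)⁻¹ + (a 1)⁻¹ := by
    have e1 : ∑ j, (starRingEnd ℂ) (a j) = ∑ j, (a j)⁻¹ := by
      rw [← Equiv.sum_comp τ (fun j => (a j)⁻¹)]
      refine Finset.sum_congr rfl fun j _ => ?_
      rw [hτ j, inv_inv]
    rw [Fin.sum_univ_two, Fin.sum_univ_two] at e1
    rw [map_add, e1]
  have h2 : ((‖a 0 + a 1‖ ^ 2 : ℝ) : ℂ) = ((2 + u : ℝ) : ℂ) := by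
    rw [← Complex.normSq_eq_norm_sq, ← Complex.mul_conj, h1]
    push_cast
    rw [← hu]
    have := h0 0
    have := h0 1
    field_simp
    ring
  exact_mod_cast h2

variable {ι : Type*} [DecidableEq ι] {θ : ι → PL S → ℂ} {α : ι → PL S → Fin 2 → ℂ}

lemma ratio (h : HeckeCharacters θ α) (i : ι) (v : PL S) {u : ℝ}
    (hu : α i v 0 / α i v 1 + α i v 1 / α i v 0 = u) : ‖θ i v‖ ^ 2 / Nm v.1 = 2 + u := by
  obtain ⟨τ, hτ⟩ := h.family.unitary i v
  have hN := two_le v.1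
  rw [h.eigenvalue, norm_mul, mul_pow, Complex.norm_real, Real.norm_eq_abs, sq_abs,
    Real.sq_sqrt hN.le, norm_sq_eq (h.family.ne_zero i v) hτ hu]
  field_simp

/-- the general bound -/
lemma general (h : HeckeCharacters θ α) {P : PL S → Prop} (s : Finset ι) (p q t : ℝ) (ht : 0 < t)
    (hpq : 0 < p ^ 2 + q ^ 2)
    (hP : ∀ v, P v → t * s.card ≤ ∑ i ∈ s, (p * (‖θ i v‖ ^ 2 / Nm v.1 - 1) +
      q * ((‖θ i v‖ ^ 2 / Nm v.1) ^ 2 - 3 * (‖θ i v‖ ^ 2 / Nm v.1) + 1))) :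
    upperDensity P ≤ (p ^ 2 + q ^ 2) / (p ^ 2 + q ^ 2 + t ^ 2 * s.card) := by
  obtain ⟨M, hM⟩ : ∃ M, M = p ^ 2 + q ^ 2 := ⟨_, rfl⟩
  rw [← hM] at hpq ⊢
  have hn : (0 : ℝ) ≤ s.card := Nat.cast_nonneg _
  have hw : 0 < M / t + t * s.card := by positivity
  refine upper_le fun ε hε => ?_
  have := share_form h.family s p q (M / t) hw (P := P) (fun v hv u hu _ => by
    have h1 := hP v hv
    have h2 : ∑ i ∈ s, (p * (‖θ i v‖ ^ 2 / Nm v.1 - 1) +
        q * ((‖θ i v‖ ^ 2 / Nm v.1) ^ 2 - 3 * (‖θ i v‖ ^ 2 / Nm v.1) + 1)) =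
        ∑ i ∈ s, (p * (1 + u i) + q * (u i ^ 2 + u i - 1)) := by
      refine Finset.sum_congr rfl fun i _ => ?_
      rw [ratio h i v (hu i)]
      ring
    rw [h2] at h1
    linarith) hε
  filter_upwards [this] with x hx
  refine hx.trans (le_of_eq ?_)
  rw [← hM]
  congr 1
  field_simp

open scoped Classical in
/-- Upper Dirichlet densities of sets of places `v ∉ S`; `s` is a finite set of indices.
1. for real `p`, `q`, not both `0`, and `t > 0`: the `v` at which the sum over `i ∈ s` of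
`p (x - 1) + q (x ^ 2 - 3 x + 1)`, `x = |θ_i(v)| ^ 2 / N v`, is at least `t |s|`, have upper density
at most `(p ^ 2 + q ^ 2) / (p ^ 2 + q ^ 2 + t ^ 2 |s|)`;
2. `|θ_i(v)| ≥ T (N v) ^ (1/2)` for all `i ∈ s`, `T ≥ 2`:
at most `1 / (1 + |s| ((T ^ 2 - 1) ^ 2 + (T ^ 4 - 3 T ^ 2 + 1) ^ 2))`;
3. the bound `|θ_i(v)| ≤ 2 (N v) ^ (1/2)` fails for all `i ∈ s`: at most `1 / (1 + 34 |s|)`;
4. it fails for at least `t |s|` of the `i ∈ s`, `t > 1 / 10`, `s` not empty: at most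
`153 / (153 + 50 |s| (10 t - 1) ^ 2)`;
5. the mean of the squares of the `|θ_i(v)|`, `i ∈ s`, is at least `(1 + t) N v`, `t > 0`:
at most `1 / (1 + t ^ 2 |s|)`; the same for at most `(1 - t) N v`;
6. the mean of the fourth powers is at least `(2 + t) (N v) ^ 2`: at most `10 / (10 + t ^ 2 |s|)`;
7. for an infinite family the bound fails for all `i` only at a set of density `0`. -/
theorem result (h : HeckeCharacters θ α) :
    (∀ (s : Finset ι) (p q t : ℝ), 0 < t → (p ≠ 0 ∨ q ≠ 0) →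
      upperDensity (fun v : PL S => t * s.card ≤ ∑ i ∈ s, (p * (‖θ i v‖ ^ 2 / Nm v.1 - 1) +
        q * ((‖θ i v‖ ^ 2 / Nm v.1) ^ 2 - 3 * (‖θ i v‖ ^ 2 / Nm v.1) + 1))) ≤
      (p ^ 2 + q ^ 2) / (p ^ 2 + q ^ 2 + t ^ 2 * s.card)) ∧
    (∀ (s : Finset ι) (T : ℝ), 2 ≤ T →
      upperDensity (fun v : PL S => ∀ i ∈ s, T * Real.sqrt (Nm v.1) ≤ ‖θ i v‖) ≤
      1 / (1 + s.card * ((T ^ 2 - 1) ^ 2 + (T ^ 4 - 3 * T ^ 2 + 1) ^ 2))) ∧
    (∀ s : Finset ι,
      upperDensity (fun v : PL S => ∀ i ∈ s, 2 * Real.sqrt (Nm v.1) < ‖θ i v‖) ≤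
      1 / (1 + 34 * s.card)) ∧
    (∀ (s : Finset ι) (t : ℝ), s.Nonempty → 1 / 10 < t →
      upperDensity (fun v : PL S =>
        t * s.card ≤ ((s.filter (fun i => 2 * Real.sqrt (Nm v.1) < ‖θ i v‖)).card : ℝ)) ≤
      153 / (153 + 50 * s.card * (10 * t - 1) ^ 2)) ∧
    (∀ (s : Finset ι) (t : ℝ), 0 < t →
      upperDensity (fun v : PL S => (1 + t) * s.card * Nm v.1 ≤ ∑ i ∈ s, ‖θ i v‖ ^ 2) ≤
        1 / (1 + t ^ 2 * s.card) ∧
      upperDensity (fun v : PL S => ∑ i ∈ s, ‖θ i v‖ ^ 2 ≤ (1 - t) * s.card * Nm v.1) ≤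
        1 / (1 + t ^ 2 * s.card)) ∧
    (∀ (s : Finset ι) (t : ℝ), 0 < t →
      upperDensity (fun v : PL S => (2 + t) * s.card * (Nm v.1 : ℝ) ^ 2 ≤ ∑ i ∈ s, ‖θ i v‖ ^ 4) ≤
        10 / (10 + t ^ 2 * s.card)) ∧
    (Infinite ι →
      upperDensity (fun v : PL S => ∀ i, 2 * Real.sqrt (Nm v.1) < ‖θ i v‖) = 0) := by
  -- all large
  have tails : ∀ (s : Finset ι) (T : ℝ), 2 ≤ T → ∀ P : PL S → Prop,
      (∀ v, P v → ∀ i ∈ s, T * Real.sqrt (Nm v.1) ≤ ‖θ i v‖) → upperDensity P ≤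
      1 / (1 + s.card * ((T ^ 2 - 1) ^ 2 + (T ^ 4 - 3 * T ^ 2 + 1) ^ 2)) := by
    intro s T hT P hP
    have hT4 : 4 ≤ T ^ 2 := by nlinarith
    obtain ⟨Y, hY⟩ : ∃ Y, Y = T ^ 2 := ⟨_, rfl⟩
    have e4 : T ^ 4 - 3 * T ^ 2 + 1 = Y ^ 2 - 3 * Y + 1 := by rw [hY]; ring
    rw [e4, ← hY]
    rw [← hY] at hT4
    obtain ⟨p, hp⟩ : ∃ p, p = Y - 1 := ⟨_, rfl⟩
    obtain ⟨q, hq⟩ : ∃ q, q = Y ^ 2 - 3 * Y + 1 := ⟨_, rfl⟩
    have hp3 : 3 ≤ p := by rw [hp]; linarith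
    have hq0 : 0 ≤ q := by rw [hq]; nlinarith
    rw [← hp, ← hq]
    have hM : 0 < p ^ 2 + q ^ 2 := by positivity
    have h1 := general h (P := P) s p q (p ^ 2 + q ^ 2) hM hM (fun v hv => by
      have h2 : ∑ _i ∈ s, (p ^ 2 + q ^ 2) ≤ ∑ i ∈ s, (p * (‖θ i v‖ ^ 2 / Nm v.1 - 1) +
          q * ((‖θ i v‖ ^ 2 / Nm v.1) ^ 2 - 3 * (‖θ i v‖ ^ 2 / Nm v.1) + 1)) := by
        refine Finset.sum_le_sum fun i hi => ?_
        have hN := two_le v.1
        obtain ⟨x, hx⟩ : ∃ x, x = ‖θ i v‖ ^ 2 / Nm v.1 := ⟨_, rfl⟩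
        rw [← hx]
        have hxY : Y ≤ x := by
          rw [hx, le_div_iff₀ hN, hY]
          have h3 := pow_le_pow_left₀ (by positivity) (hP v hv i hi) 2
          rw [mul_pow, Real.sq_sqrt hN.le] at h3
          exact h3
        have h4 : p ≤ x - 1 := by rw [hp]; linarith
        have h5 : q ≤ x ^ 2 - 3 * x + 1 := by rw [hq]; nlinarith
        have h6 := mul_le_mul_of_nonneg_left h4 (by linarith : (0 : ℝ) ≤ p)
        have h7 := mul_le_mul_of_nonneg_left h5 hq0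
        nlinarith
      rw [Finset.sum_const, nsmul_eq_mul] at h2
      linarith)
    refine h1.trans (le_of_eq ?_)
    have hn : (0 : ℝ) ≤ s.card := Nat.cast_nonneg _
    rw [div_eq_div_iff (by positivity) (by positivity)]
    ring
  have tails2 : ∀ (s : Finset ι) (P : PL S → Prop),
      (∀ v, P v → ∀ i ∈ s, 2 * Real.sqrt (Nm v.1) < ‖θ i v‖) → upperDensity P ≤
      1 / (1 + 34 * s.card) := by
    intro s P hP
    refine (tails s 2 le_rfl P fun v hv i hi => (hP v hv i hi).le).trans (le_of_eq ?_)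
    norm_num
    ring
  have square : ∀ (s : Finset ι) (v : PL S),
      ∑ i ∈ s, ‖θ i v‖ ^ 2 = Nm v.1 * ∑ i ∈ s, (‖θ i v‖ ^ 2 / Nm v.1) := by
    intro s v
    have hN := two_le v.1
    rw [Finset.mul_sum]
    exact Finset.sum_congr rfl fun i _ => by field_simp
  refine ⟨fun s p q t ht hpq => ?_, fun s T hT => ?_, fun s => ?_, fun s t hs ht => ?_,
    fun s t ht => ⟨?_, ?_⟩, fun s t ht => ?_, fun hinf => ?_⟩
  · refine general h s p q t ht ?_ fun v hv => hv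
    rcases hpq with h1 | h1
    · have : 0 < p ^ 2 := by positivity
      nlinarith [sq_nonneg q]
    · have : 0 < q ^ 2 := by positivity
      nlinarith [sq_nonneg p]
  · exact tails s T hT _ fun v hv => hv
  · exact tails2 s _ fun v hv => hv
  · -- many
    have hn : (0 : ℝ) < s.card := by exact_mod_cast Finset.card_pos.2 hs
    have hθ' : 0 < 10 * t - 1 := by linarith
    have h1 := general h (P := fun v : PL S =>
      t * s.card ≤ ((s.filter (fun i => 2 * Real.sqrt (Nm v.1) < ‖θ i v‖)).card : ℝ)) s 5 3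
      (10 / 3 * (10 * t - 1)) (by positivity) (by norm_num) (fun v hv => by
        have hN := two_le v.1
        have h2 : ∑ i ∈ s, (-(10 / 3) + 100 / 3 *
            (if 2 * Real.sqrt (Nm v.1) < ‖θ i v‖ then (1 : ℝ) else 0)) ≤
            ∑ i ∈ s, (5 * (‖θ i v‖ ^ 2 / Nm v.1 - 1) +
              3 * ((‖θ i v‖ ^ 2 / Nm v.1) ^ 2 - 3 * (‖θ i v‖ ^ 2 / Nm v.1) + 1)) := by
          refine Finset.sum_le_sum fun i _ => ?_
          obtain ⟨x, hx⟩ : ∃ x, x = ‖θ i v‖ ^ 2 / Nm v.1 := ⟨_, rfl⟩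
          rw [← hx]
          by_cases hlt : 2 * Real.sqrt (Nm v.1) < ‖θ i v‖
          · rw [if_pos hlt]
            have hx4 : 4 ≤ x := by
              rw [hx, le_div_iff₀ hN]
              have h3 := pow_le_pow_left₀ (by positivity) hlt.le 2
              rw [mul_pow, Real.sq_sqrt hN.le] at h3
              linarith
            nlinarith
          · rw [if_neg hlt]
            nlinarith [sq_nonneg (3 * x - 2)]
        rw [Finset.sum_add_distrib, Finset.sum_const, ← Finset.mul_sum, Finset.sum_boole,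
          nsmul_eq_mul] at h2
        refine le_trans ?_ h2
        nlinarith)
    refine h1.trans (le_of_eq ?_)
    rw [div_eq_div_iff (by positivity) (by positivity)]
    ring
  · have h1 := general h (P := fun v : PL S => (1 + t) * s.card * Nm v.1 ≤ ∑ i ∈ s, ‖θ i v‖ ^ 2)
      s 1 0 t ht (by norm_num) (fun v hv => by
        have hN := two_le v.1
        rw [square] at hv
        have h2 : (1 + t) * s.card ≤ ∑ i ∈ s, (‖θ i v‖ ^ 2 / Nm v.1) := by
          refine le_of_mul_le_mul_left ?_ hN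
          linarith
        have h3 : ∑ i ∈ s, ((1 : ℝ) * (‖θ i v‖ ^ 2 / Nm v.1 - 1) +
            0 * ((‖θ i v‖ ^ 2 / Nm v.1) ^ 2 - 3 * (‖θ i v‖ ^ 2 / Nm v.1) + 1)) =
            ∑ i ∈ s, (‖θ i v‖ ^ 2 / Nm v.1) - s.card := by
          simp [Finset.sum_sub_distrib]
        rw [h3]
        linarith)
    refine h1.trans (le_of_eq ?_)
    norm_num
  · have h1 := general h (P := fun v : PL S => ∑ i ∈ s, ‖θ i v‖ ^ 2 ≤ (1 - t) * s.card * Nm v.1)
      s (-1) 0 t ht (by norm_num) (fun v hv => by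
        have hN := two_le v.1
        rw [square] at hv
        have h2 : ∑ i ∈ s, (‖θ i v‖ ^ 2 / Nm v.1) ≤ (1 - t) * s.card := by
          refine le_of_mul_le_mul_left ?_ hN
          linarith
        have h3 : ∑ i ∈ s, ((-1 : ℝ) * (‖θ i v‖ ^ 2 / Nm v.1 - 1) +
            0 * ((‖θ i v‖ ^ 2 / Nm v.1) ^ 2 - 3 * (‖θ i v‖ ^ 2 / Nm v.1) + 1)) =
            s.card - ∑ i ∈ s, (‖θ i v‖ ^ 2 / Nm v.1) := by
          simp [Finset.sum_sub_distrib]
        rw [h3]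
        linarith)
    refine h1.trans (le_of_eq ?_)
    norm_num
  · have h1 := general h (P := fun v : PL S =>
      (2 + t) * s.card * (Nm v.1 : ℝ) ^ 2 ≤ ∑ i ∈ s, ‖θ i v‖ ^ 4)
      s 3 1 t ht (by norm_num) (fun v hv => by
        have hN := two_le v.1
        have h4 : ∑ i ∈ s, ‖θ i v‖ ^ 4 = (Nm v.1 : ℝ) ^ 2 * ∑ i ∈ s, (‖θ i v‖ ^ 2 / Nm v.1) ^ 2 := by
          rw [Finset.mul_sum]
          exact Finset.sum_congr rfl fun i _ => by field_simp
        rw [h4] at hv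
        have h2 : (2 + t) * s.card ≤ ∑ i ∈ s, (‖θ i v‖ ^ 2 / Nm v.1) ^ 2 := by
          refine le_of_mul_le_mul_left ?_ (by positivity : (0 : ℝ) < (Nm v.1 : ℝ) ^ 2)
          linarith
        have h3 : ∑ i ∈ s, ((3 : ℝ) * (‖θ i v‖ ^ 2 / Nm v.1 - 1) +
            1 * ((‖θ i v‖ ^ 2 / Nm v.1) ^ 2 - 3 * (‖θ i v‖ ^ 2 / Nm v.1) + 1)) =
            ∑ i ∈ s, ((‖θ i v‖ ^ 2 / Nm v.1) ^ 2 - 2) :=
          Finset.sum_congr rfl fun i _ => by ring
        rw [h3, Finset.sum_sub_distrib, Finset.sum_const, nsmul_eq_mul]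
        linarith)
    refine h1.trans (le_of_eq ?_)
    norm_num
  · refine le_antisymm ?_ upper_nonneg
    refine le_of_forall_pos_le_add fun η hη => ?_
    rw [zero_add]
    obtain ⟨N, hN⟩ := exists_nat_gt (1 / η)
    obtain ⟨s, hs⟩ := Infinite.exists_subset_card_eq ι N
    refine (tails2 s _ fun v hv i _ => hv i).trans ?_
    rw [hs, div_le_iff₀ (by positivity)]
    rw [div_lt_iff₀ hη] at hN
    have : (0 : ℝ) ≤ N := Nat.cast_nonneg N
    nlinarith

end Pool.Agent.Results.MP_4819b8_nt.SimultaneousFailures
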