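import Pool.Agent.N522.RP.Defs

/-!
# MP_4819b8_nt: the bound with a constant of subexponential growth in the degree implies Q1
-/

open Pool.Agent.N522.RP

/-- Q1 holds if and only if there is a function `C` of slower than exponential growth such that
`|θ(T_℘)| ≤ C([K : ℚ]) (N℘)^{1/2}` for all number fields `K`, all nontrivial `θ` and all primes. -/
theorem Pool.Agent.Results.MP_4819b8_nt.SubexponentialConstant.result :
    ∀ Y : Theory, Facts Y → (Q1 Y ↔ ∃ C : ℕ → ℝ, SubExp C ∧ BoundedBy Y C) :=
  fun _ F => q1_iff F
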